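import Pool.Agent.H114R2.Design
import Pool.Agent.TH394.HadN179
import Pool.Agent.TH394.HadN223
import Pool.Agent.TH394.HadN311
import Pool.Agent.TH394.HadN347
import Pool.Agent.TH394.HadN419
import Pool.Agent.TH394.HadN443
import Pool.Agent.TH394.HadN479
import Pool.Agent.TH394.HadN487
import Pool.Agent.TH394.HadN491
import Pool.Agent.TH394.HadN919
import Pool.Agent.TH510.HadN359
import Pool.Agent.TH786.Had668
import Pool.Agent.TH786.Had1132

/-!
# New symmetric designs with Hadamard parameters

For `m = 167, 179, 223, 283, 311, 347, 359, 419, 443, 479, 487, 491, 919` there is a symmetric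
`(4 m - 1, 2 m - 1, m - 1)` design; for `m = 167` this is the triple `(667, 333, 166)`.
-/

set_option autoImplicit false

namespace Pool.Agent.Results.MP_3038d1_co.NewHadamardDesigns

/-- `B` lists the `v` blocks of a symmetric `(v, k, l)`-design on the point set `Fin v`:
`k < v`, `0 < l`, every block has `k` points, every point is in `k` blocks, any two distinct points
are in exactly `l` common blocks (and any two distinct blocks have exactly `l` common points). -/
def IsSymmetricDesign (v k l : ℕ) (B : Fin v → Finset (Fin v)) : Prop :=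
  k < v ∧ 0 < l ∧ (∀ i, (B i).card = k) ∧
  (∀ x, (Finset.univ.filter (fun i => x ∈ B i)).card = k) ∧
  (∀ x y, x ≠ y → (Finset.univ.filter (fun i => x ∈ B i ∧ y ∈ B i)).card = l) ∧
  (∀ i j, i ≠ j → (B i ∩ B j).card = l)

theorem result : ∀ m ∈ ([167, 179, 223, 283, 311, 347, 359, 419, 443, 479, 487, 491,
    919] : List ℕ),
    ∃ B, IsSymmetricDesign (4 * m - 1) (2 * m - 1) (m - 1) B := by
  have key : ∀ m : ℕ, 1 < m → Pool.Agent.TH394.HadOrder (4 * m) →
      ∃ B, IsSymmetricDesign (4 * m - 1) (2 * m - 1) (m - 1) B :=
    fun m hm h => Pool.Agent.H114R2.hadDesign_of_had hm h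
  intro m hm
  simp only [List.mem_cons, List.not_mem_nil, or_false] at hm
  rcases hm with rfl | rfl | rfl | rfl | rfl | rfl | rfl | rfl | rfl | rfl | rfl | rfl | rfl
  · exact key 167 (by norm_num) Pool.Agent.TH786.Had.N167.had
  · exact key 179 (by norm_num) Pool.Agent.TH394.N179.had
  · exact key 223 (by norm_num) Pool.Agent.TH394.N223.had
  · exact key 283 (by norm_num) Pool.Agent.TH786.Had.N283.had
  · exact key 311 (by norm_num) Pool.Agent.TH394.N311.had
  · exact key 347 (by norm_num) Pool.Agent.TH394.N347.had
  · exact key 359 (by norm_num) Pool.Agent.TH510.Had.N359.had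
  · exact key 419 (by norm_num) Pool.Agent.TH394.N419.had
  · exact key 443 (by norm_num) Pool.Agent.TH394.N443.had
  · exact key 479 (by norm_num) Pool.Agent.TH394.N479.had
  · exact key 487 (by norm_num) Pool.Agent.TH394.N487.had
  · exact key 491 (by norm_num) Pool.Agent.TH394.N491.had
  · exact key 919 (by norm_num) Pool.Agent.TH394.N919.had

end Pool.Agent.Results.MP_3038d1_co.NewHadamardDesigns
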