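import Mathlib
import Pool.Agent.TH905.PC.Pts

set_option autoImplicit false

/-!
# Permutation characters of automorphism groups of symmetric designs on almost all numbers of points

Let `M ≥ 1`.  For all `v` outside a set of natural density zero, every nontrivial symmetric
`(v, k, lam)` design (`2 ≤ k ≤ v - 2`, `k` and `lam` arbitrary) has the following property.  Let `H`
be a group of automorphisms whose order has only prime divisors of `M`.  For a linear character `χ` of
`H` let `m χ` be the number of the orbits of `H` on the points on which the stabilizers lie in the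
kernel of `χ` (this number is the multiplicity of `χ` in the permutation character).  If `χ ^ M = 1`
then `m χ` is even for `χ ≠ 1` and odd for `χ = 1`.  If `χ` is real then `m χ` is `0` modulo `4` for
`χ ≠ 1` and `3` modulo `4` for `χ = 1`, and the product of the lengths of these orbits is a square.
-/

open Filter Topology

namespace Pool.Agent.Results.MP_3038d1_co.PermutationCharacters

/-- The blocks `B i` (`i : Fin v`) form a symmetric `(v, k, lam)` design on the points `Fin v`
with `2 ≤ k ≤ v - 2`. -/
structure IsDesign (v k lam : ℕ) (B : Fin v → Finset (Fin v)) : Prop where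
  two_le : 2 ≤ k
  le : k + 2 ≤ v
  size : ∀ i, (B i).card = k
  pair : ∀ x y : Fin v, x ≠ y →
    (Finset.univ.filter (fun i => x ∈ B i ∧ y ∈ B i)).card = lam

/-- the orbits of `H` on the points on which the stabilizers of the points lie in the kernel
of `χ` -/
def orbs {v : ℕ} (H : Subgroup (Equiv.Perm (Fin v))) (χ : H →* ℂˣ) : Set (Set (Fin v)) :=
  {O | ∃ x : Fin v, O = MulAction.orbit H x ∧ ∀ y ∈ O, ∀ h : H, h • y = y → χ h = 1}

open Classical in
/-- the property of the numbers `v` of points, for a given `M` -/
def Good (M v : ℕ) : Prop :=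
  ∀ (k lam : ℕ) (B : Fin v → Finset (Fin v)) (H : Subgroup (Equiv.Perm (Fin v))),
    IsDesign v k lam B → (∀ h ∈ H, ∀ i, ∃ j, (B i).image h = B j) →
      (∀ q : ℕ, q.Prime → q ∣ Nat.card H → q ∣ M) →
      ∀ χ : H →* ℂˣ, (χ ^ M = 1 → (orbs H χ).ncard % 2 = (if χ = 1 then 1 else 0)) ∧
        (χ ^ 2 = 1 → (orbs H χ).ncard % 4 = (if χ = 1 then 3 else 0) ∧
          IsSquare (∏ᶠ O ∈ orbs H χ, O.ncard))

/-- The integers `v` without the property have natural density zero. -/
theorem result (M : ℕ) (hM : 0 < M) :
    Tendsto (fun X : ℕ => (({v : ℕ | v ≤ X ∧ ¬ Good M v}.ncard : ℕ) : ℝ) / X)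
      atTop (𝓝 0) := by
  have h : Pool.Agent.H634R3.AA.Small (fun v => ¬ Good M v) := by
    refine (Pool.Agent.TH905.PC.small_B hM.ne').mono fun v hv => ?_
    simp only [Good, not_forall] at hv
    obtain ⟨k, lam, B, H, hB, haut, hH, χ, hχ⟩ := hv
    have h1 := hB.le
    exact ⟨k, lam, B, H, χ, hB.two_le, hB.le, by omega, hB.size, hB.pair, haut, hH, hχ⟩
  rw [Metric.tendsto_nhds]
  intro ε hε
  obtain ⟨N0, hN0⟩ := h (ε / 2) (by positivity)
  filter_upwards [eventually_ge_atTop N0, eventually_gt_atTop 0] with X h1 h2
  have h3 := hN0 X h1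
  have hX : (0 : ℝ) < X := by exact_mod_cast h2
  rw [Real.dist_eq, sub_zero, abs_of_nonneg (by positivity), div_lt_iff₀ hX]
  have : 0 < ε / 2 * X := by positivity
  linarith

end Pool.Agent.Results.MP_3038d1_co.PermutationCharacters
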