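import Pool.Agent.TH669.PT.Main

set_option autoImplicit false

/-!
# Point-transitive automorphism groups of symmetric designs, almost all numbers of points

The starting result `TransitiveAlmostAll` says that for almost all `v` no nontrivial symmetric
design on `v` points has a solvable point-transitive group of automorphisms. Here solvability is
removed for all `v` with a prime factor greater than `√v` (about 69 percent of all `v`), and more
generally for all groups with an invariant partition of the points into `m ≥ 2` classes such that
`r ^ a ∣ m < r ^ (a + 1)` for a prime `r` and some `a ≥ 1` (solvable transitive groups have such a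
partition, `m` being a prime power), and for all groups such that some prime divisor of `v` does
not divide the order of a point stabilizer (for instance all groups acting regularly, i.e.
difference sets in arbitrary groups of order `v`).

If the theorem of Fein, Kantor and Schacher is used (every transitive group of permutations of at
least two points contains a fixed-point-free element of prime power order; its proof needs the
classification of the finite simple groups, and it is an explicit hypothesis here), there is no
condition on `v` and on the group.

Proof: the groups in question contain a fixed-point-free element of prime power order; for the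
invariant partition this follows by counting the maximal subgroups of a Sylow `r`-subgroup which
contain the stabilizers of the classes: it has fewer than `r` orbits on the classes. The order of
such an element is a power of a prime divisor of `v`, and it fixes an even number of points; the
starting result `OddFixedPoints` says that this happens only for `v` in a set of density zero.
-/

namespace Pool.Agent.Results.MP_3038d1_co.PointTransitiveGroups

open Filter Topology

/-- The blocks `B i` (`i : Fin v`) form a symmetric `(v, k, lam)` design on the points `Fin v`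
with `2 ≤ k ≤ v - 2`, and `H` is a group of automorphisms of the design acting transitively on the
points. -/
structure IsPointTransitiveDesign (v k lam : ℕ) (B : Fin v → Finset (Fin v))
    (H : Subgroup (Equiv.Perm (Fin v))) : Prop where
  two_le : 2 ≤ k
  le : k + 2 ≤ v
  size : ∀ i, (B i).card = k
  pair : ∀ x y : Fin v, x ≠ y →
    (Finset.univ.filter (fun i => x ∈ B i ∧ y ∈ B i)).card = lam
  transitive : ∀ x y : Fin v, ∃ h ∈ H, h x = y
  aut : ∀ h ∈ H, ∀ i, ∃ j, (B i).image h = B j

/-- `c` is the class map of a partition of the points into `m` nonempty classes which is invariant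
under `H`, and `r ^ a ∣ m < r ^ (a + 1)` for some prime `r` and some `a ≥ 1`. -/
def DominantPrimePower (v : ℕ) (H : Subgroup (Equiv.Perm (Fin v))) : Prop :=
  ∃ (m r a : ℕ) (c : Fin v → Fin m), Function.Surjective c ∧
    (∀ h ∈ H, ∀ x y, c x = c y → c (h x) = c (h y)) ∧
      r.Prime ∧ 1 ≤ a ∧ r ^ a ∣ m ∧ m < r ^ (a + 1)

/-- Some prime divisor of `v` does not divide the order of the stabilizer of some point. -/
def PrimeOutsideStabilizer (v : ℕ) (H : Subgroup (Equiv.Perm (Fin v))) : Prop :=
  ∃ (q : ℕ) (x : Fin v), q.Prime ∧ q ∣ v ∧ ¬ q ∣ Nat.card (MulAction.stabilizer H x)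

/-- The theorem of Fein, Kantor and Schacher: every transitive group of permutations of at least two
points contains an element of prime power order without fixed points. -/
def FeinKantorSchacher : Prop :=
  ∀ (n : ℕ) (H : Subgroup (Equiv.Perm (Fin n))), 2 ≤ n → (∀ x y : Fin n, ∃ h ∈ H, h x = y) →
    ∃ h ∈ H, ∃ q b : ℕ, q.Prime ∧ orderOf h = q ^ b ∧ ∀ x, h x ≠ x

/-- (1) The set of all `v` for which some symmetric `(v, k, lam)` design with `2 ≤ k ≤ v - 2` has a
point-transitive group `H` of automorphisms with `DominantPrimePower v H` (for instance `v` has a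
prime factor `p` with `p ^ 2 > v`) or `PrimeOutsideStabilizer v H` (for instance `H` is regular) has
natural density zero. (2) If the theorem of Fein, Kantor and Schacher holds, this is true for all
point-transitive groups `H`, without any condition. -/
theorem result :
    Tendsto (fun N : ℕ =>
      ({v : ℕ | v ≤ N ∧ ∃ (k lam : ℕ) (B : Fin v → Finset (Fin v))
        (H : Subgroup (Equiv.Perm (Fin v))), IsPointTransitiveDesign v k lam B H ∧
          (DominantPrimePower v H ∨ PrimeOutsideStabilizer v H)}.ncard : ℝ) / (N : ℝ))
      atTop (𝓝 0) ∧
    (FeinKantorSchacher →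
      Tendsto (fun N : ℕ =>
        ({v : ℕ | v ≤ N ∧ ∃ (k lam : ℕ) (B : Fin v → Finset (Fin v))
          (H : Subgroup (Equiv.Perm (Fin v))), IsPointTransitiveDesign v k lam B H}.ncard : ℝ) /
            (N : ℝ))
        atTop (𝓝 0)) := by
  have h := Pool.Agent.W854.FA.small_tendsto (Pool.Agent.W854.FA.small_E 0)
  have key : ∀ S : ℕ → Prop, (∀ v, S v → Pool.Agent.W854.FA.HasE 0 v) →
      Tendsto (fun N : ℕ => ({v : ℕ | v ≤ N ∧ S v}.ncard : ℝ) / (N : ℝ)) atTop (𝓝 0) := by
    intro S hS
    refine squeeze_zero (fun N => by positivity) (fun N => ?_) h
    refine div_le_div_of_nonneg_right ?_ (Nat.cast_nonneg N)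
    refine (Nat.cast_le (α := ℝ)).2 (Set.ncard_le_ncard ?_
      (Pool.Agent.H634R3.AA.fin_le N _))
    rintro v ⟨hv, hs⟩
    exact ⟨hv, hS v hs⟩
  constructor
  · refine key _ ?_
    rintro v ⟨k, lam, B, H, hd, hc | hc⟩
    · obtain ⟨m, r, a, c, hc1, hc2, hr, ha, h1, h2⟩ := hc
      obtain ⟨σ, hσ, ⟨b, hb⟩, hfree⟩ := Pool.Agent.TH669.PT.exists_of_partition
        (by have := hd.le; omega) H hd.transitive c hc1 hc2 hr ha h1 h2
      exact Pool.Agent.TH669.PT.hasE_of hd.two_le hd.le hd.size hd.pair (hd.aut σ hσ) hr hb hfree
    · obtain ⟨q, x, hq, hqv, hx⟩ := hc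
      obtain ⟨σ, hσ, ⟨b, hb⟩, hfree⟩ := Pool.Agent.TH669.PT.exists_of_stabilizer
        H hd.transitive hq hqv x hx
      exact Pool.Agent.TH669.PT.hasE_of hd.two_le hd.le hd.size hd.pair (hd.aut σ hσ) hq hb hfree
  · intro hFKS
    refine key _ ?_
    rintro v ⟨k, lam, B, H, hd⟩
    obtain ⟨σ, hσ, q, b, hq, hb, hfree⟩ := hFKS v H (by have := hd.le; omega) hd.transitive
    exact Pool.Agent.TH669.PT.hasE_of hd.two_le hd.le hd.size hd.pair (hd.aut σ hσ) hq hb hfree

end Pool.Agent.Results.MP_3038d1_co.PointTransitiveGroups
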