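import Mathlib
import Pool.Agent.TH56.RD.Main

set_option autoImplicit false

/-!
# Automorphisms of symmetric designs that are conjugate to their inverses

Let `p` be a prime which divides the order `k - lam` of a symmetric `(v, k, lam)` design exactly to an
odd power. An automorphism `σ` of order prime to `p` for which `σ ^ (p ^ j)` is conjugate to the
inverse of `σ` in the automorphism group (for some `j`) fixes an odd number of points, and the number
of its cycles of length `l` on the points is even for every `l ≥ 2`.
-/

namespace Pool.Agent.Results.MP_3038d1_co.RealAutomorphisms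

/-- The blocks `B i` (`i : Fin v`) form a symmetric `(v, k, lam)` design on the points `Fin v`
with `2 ≤ k < v`. -/
structure IsDesign (v k lam : ℕ) (B : Fin v → Finset (Fin v)) : Prop where
  two_le : 2 ≤ k
  lt : k < v
  size : ∀ i, (B i).card = k
  pair : ∀ x y : Fin v, x ≠ y →
    (Finset.univ.filter (fun i => x ∈ B i ∧ y ∈ B i)).card = lam

/-- The permutation `σ` of the points maps every block to a block. -/
def IsAutomorphism {v : ℕ} (B : Fin v → Finset (Fin v)) (σ : Equiv.Perm (Fin v)) : Prop :=
  ∀ i, ∃ j, (B i).image σ = B j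

/-- Let a symmetric `(v, k, lam)` design be given, let the prime `p` have an odd exponent in
`k - lam`, let `σ` and `ρ` be automorphisms, let the order of `σ` be prime to `p` and let `ρ` conjugate
`σ ^ (p ^ j)` to the inverse of `σ`. Then `σ` has an odd number of fixed points, and for every `l` the
number of cycles of `σ` of length `l` (fixed points not counted as cycles) is even. -/
theorem result (v k lam : ℕ) (B : Fin v → Finset (Fin v)) (hB : IsDesign v k lam B)
    (σ ρ : Equiv.Perm (Fin v)) (hσ : IsAutomorphism B σ) (hρ : IsAutomorphism B ρ)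
    (p j : ℕ) (hp : p.Prime) (hn : Odd ((k - lam).factorization p)) (hpσ : ¬ p ∣ orderOf σ)
    (hc : ρ⁻¹ * σ ^ p ^ j * ρ = σ⁻¹) :
    Odd (Finset.univ.filter (fun x => σ x = x)).card ∧ ∀ l : ℕ, Even (σ.cycleType.count l) := by
  obtain ⟨h2, hkv, hk, hpair⟩ := hB
  have hv : 2 ≤ v := by omega
  have hlam : 1 ≤ lam := by
    obtain ⟨x, hx, y, hy, hxy⟩ := Finset.one_lt_card.1
      (show 1 < (B ⟨0, by omega⟩).card by rw [hk]; omega)
    rw [← hpair x y hxy]
    exact Finset.card_pos.2 ⟨⟨0, by omega⟩, by simp [hx, hy]⟩
  have h := Pool.Agent.TH56.RD.main hv hlam hkv hk hpair hσ hρ hp hn hpσ hc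
  refine ⟨?_, h.2⟩
  convert h.1

end Pool.Agent.Results.MP_3038d1_co.RealAutomorphisms
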